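import Pool.Agent.H51.ZC.Main

/-!
# Cycles on products of elliptic curves: a given curve with two given points, and infinitely many others

Let `K` be a number field and `X` a product of `2 i + 1` elliptic curves over `K`.  We consider the algebraic cycles of
codimension `i + 1` on `X` over the algebraic closure that are sums of products `z_t × ∏_{o ∉ t} W_o`, where `t` is a set of
`i + 1` of the factors and `z_t` is a zero-cycle on the product of the factors in `t`.  Such a cycle is homologically trivial if
and only if the `z_t` have degree zero; the conjecture of Beilinson (together with that of Birch and Swinnerton-Dyer)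
predicts that it is torsion modulo rational equivalence as soon as the sums of the points of the `z_t` are zero as well.

We prove this for infinitely many products at once.  The first curve `W : y² = x³ + u x² + w x` is an arbitrary elliptic
curve over `K` with a `K`-rational point of order two, and `A`, `B` are arbitrary points of `W(K)` with `2 A ≠ 0` and `B` of
infinite order.  There are infinitely many further curves `E i` over `K`, with points `Q i ∈ E i (K)` of infinite order,
such that the assertion holds for all the products of curves among `W, E 0, E 1, …`, the curve `W` occurring at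
most once and the `E i` with arbitrary multiplicities, and for the zero-cycles whose points have coordinates in the saturation
in `W(K̄)` of the group generated by `A` and `B` (it contains `W(K)` if the rank of `W(K)` is at most two and `A`, `B`
generate a subgroup of finite index) and in the saturations in `E i (K̄)` of the groups generated by the `Q i`.

The proof: `E = E_c` has the equation `Y² = X³ + c f'(x₀) X² + c² (3 x₀ + u) D X + c³ D²`, where `f = x³ + u x² + w x`,
`x₀ = x(A) - c`, `D = f(x₀)`, and `Q = (D, D y(A))`.  The curve `y² = f(x₀ + c s²)` of genus two maps to `W × E` by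
`s ↦ (x₀ + c s², D / s²)`; this gives `2 ([A, Q] - [A, O] - [O, Q] + [O, O]) = 0` up to torsion.  The second map
to `W × E`, obtained from the translation by the point `(0, 0)`, gives the same for a multiple `n B` in
place of `A`, if `c = q(x(A)) / (x(A) - x(n B))` with `q = x² + u x + w`.  At a place above two the points `n B`, for
suitable `n`, tend to the point at infinity, so that `c` tends to zero and `Q` is closer to the point at infinity than
all the points of finite order.  A third family of curves treats the pairs `Q i`, `Q j`.
-/

set_option autoImplicit false

open WeierstrassCurve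

namespace Pool.Agent.Results.MP_6dc9d1_nt.CoordinateCycles

open Pool.Agent.H51.ZC

/-- The curve `y² = x³ + u x² + w x`. -/
def curve {K : Type*} [Field K] (u w : K) : WeierstrassCurve K := ⟨0, u, 0, w, 0⟩

/-- The curves `W, E 0, E 1, …` over the algebraic closure. -/
noncomputable def curves {K : Type*} [Field K] (W : WeierstrassCurve K) (E : ℕ → WeierstrassCurve K) (o : Option ℕ) :
    WeierstrassCurve (AlgebraicClosure K) := (crv W E o).map (algebraMap K (AlgebraicClosure K))

/-- The saturations of the groups generated by `A, B` and by the `Q i`, in the groups of the points of the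
curves `W, E 0, E 1, …` over the algebraic closure. -/
noncomputable def groups {K : Type*} [Field K] [DecidableEq K] [DecidableEq (AlgebraicClosure K)]
    {W : WeierstrassCurve K} {E : ℕ → WeierstrassCurve K} (A B : W.toAffine.Point)
    (Q : ∀ i, (E i).toAffine.Point) (o : Option ℕ) : AddSubgroup (curves W E o).toAffine.Point :=
  satSub (bc (AlgebraicClosure K) (crv W E o) '' gen A B Q o)

/-- **Theorem.** -/
theorem result (K : Type*) [Field K] [NumberField K] [DecidableEq K]
    [DecidableEq (AlgebraicClosure K)] (u w : K) (hw : w ≠ 0) (huw : u ^ 2 - 4 * w ≠ 0)
    (A B : (curve u w).toAffine.Point) (hA : 2 • A ≠ 0) (hB : ∀ n : ℕ, 0 < n → n • B ≠ 0) :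
    ∃ (E : ℕ → WeierstrassCurve K) (Q : ∀ i, (E i).toAffine.Point),
      -- the curves `W = curve u w`, `E 0`, `E 1`, … are elliptic curves with distinct `j`-invariants
      (∀ o, (crv (curve u w) E o).Δ ≠ 0) ∧
      (Function.Injective fun o => (crv (curve u w) E o).c₄ ^ 3 / (crv (curve u w) E o).Δ) ∧
      -- the points `Q i` have infinite order
      (∀ i, ∀ n : ℕ, 0 < n → n • Q i ≠ 0) ∧
      -- all the products of `2 i + 1` of the curves, `W` at most once, and all the cycles of codimension `i + 1`
      ∀ (i : ℕ) (κ : Fin (2 * i + 1) → Option ℕ), (∀ o o', κ o = none → κ o' = none → o = o') →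
        TorsionOn (fun o => curves (curve u w) E (κ o)) (i + 1) fun o => groups A B Q (κ o) := by
  obtain ⟨E, Q, h1, h2, h3, hA', hB', hQ⟩ := main K (AlgebraicClosure K) hw huw (W := curve u w)
    ⟨rfl, rfl, rfl, rfl, rfl⟩ A B hA hB
  refine ⟨E, Q, h1, h2, h3, fun i κ hκ => ?_⟩
  refine cycles_torsion (fun o => bc (AlgebraicClosure K) (crv (curve u w) E (κ o)) '' gen A B Q (κ o))
    ?_
  intro o o' hoo
  have hno : ¬(κ o = none ∧ κ o' = none) := fun h => hoo (hκ o o' h.1 h.2)
  generalize κ o = a at hno ⊢
  generalize κ o' = b at hno ⊢
  rintro _ ⟨P, hP, rfl⟩ _ ⟨P', hP', rfl⟩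
  rcases a with _ | a <;> rcases b with _ | b
  · exact absurd ⟨rfl, rfl⟩ hno
  · have e : P' = Q b := hP'
    subst e
    rcases hP with hP | hP
    · subst hP
      exact hA' b
    · have e : P = B := hP
      subst e
      exact hB' b
  · have e : P = Q a := hP
    subst e
    rcases hP' with hP' | hP'
    · subst hP'
      exact (hA' a).symm
    · have e : P' = B := hP'
      subst e
      exact (hB' a).symm
  · have e : P = Q a := hP
    have e' : P' = Q b := hP'
    subst e e'
    exact hQ a b

end Pool.Agent.Results.MP_6dc9d1_nt.CoordinateCycles
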