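import Pool.Agent.H81.GD.Rank
import Pool.Agent.H81.GD.Lfun
import Pool.Agent.H81.GD.Quad
import Pool.Agent.H98.R.Main
import Pool.Agent.H98.W.Ord
import Pool.Agent.H98.W.Ext

/-!
# Beilinson's conjecture for infinitely many curves of genus two, with Chow groups of rank zero and four, over
# number fields of unbounded degree

Let `q ≡ 2 (mod 3)` be ANY odd prime number and `d = ± q ≡ 1 (mod 4)`.  For `D ≠ 0` in a number field `k` let
`X_D` be the smooth projective curve of genus `2` over `k` with the affine equation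

`y² = D (2 x⁶ - 30 x⁴ + 150 x² + 6) = 2 D ((x² - 5)³ + 128)`.

Let `M = ℚ(√-3)` and let `L/M` be ANY Galois extension whose degree is a power of two, in which the primes
of `M` do not ramify that are not above three and modulo which `2` is a cube (the primes above two are
among them; there is no condition at the prime above three).  Let `k ⊆ K ⊆ L` be ANY subfields such that
`√-3 ∈ k` and `q` is inert in `K`, and let `D` be ANY element of `k` such that `D d` is a square in `K`.

Theorem (Beilinson's conjecture for the curves `X_D` over `k`, `i = 0`).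

* If `D d` is not a square in `k`, then both sides are zero: `CH¹(X_D)₀` is a torsion group, and
  `L(H¹(X_D), s)` continues analytically from `Re s > 3/2` to a connected open set containing `1` and is not
  zero at `1`.
* If `D d` is a square in `k`, so that `X_D` is isomorphic to `X_d`, then the rank of `CH¹(X_D)₀` is `4 ρ`, and the
  order of vanishing of `L(H¹(X_D), s)` at `1` is `4 m`, where `ρ` is the rank of `E_d(ℚ)` and `m` the order
  of the L-series of `E_d/ℚ`, for `E_d : y² = x³ + 16 d³`.  We have `ρ ≤ 1`, `m` is odd, and `m = ρ = 1` if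
  `d = 5`: then both sides are equal to `4`, for the curve `y² = 10 x⁶ - 150 x⁴ + 750 x² + 30`.  (For all `d`
  with `m = 1` one has `ρ = 1`, by Gross-Zagier and Kolyvagin.)

In both cases `2 D` is not a square in `k`, so that `X_D` has one closed point `∞` at infinity, of degree `2`, and
`CH¹(X_D)₀ = Pic⁰(X_D)` is a subgroup (of index `1` or `2`) of `Pic(X_D) / ⟨∞⟩`, which is the class group of the
coordinate ring of the affine curve, a Dedekind domain.

The second part of the theorem: there are infinitely many such fields `K`, of every degree `2 ^ n` over `M`: for all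
`n ≥ 1` and `B` one finds `K = L` cyclic of degree `2 ^ n` over `M` with a totally ramified prime of norm `> B`, and an
integer `D` of `M` such that `D d` is a square in `K` and not in `M`, so that the first case occurs (for `k = M` and
infinitely many `D` modulo squares, since `M(√(D d))/M` is ramified at the totally ramified prime).  (In general the fields `K` need not be normal over `ℚ` or over `M`, nor are their Galois
closures abelian over a totally real field or over an imaginary quadratic field.)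

Proof.  The curve `X_D` has the automorphisms `σ (x, y) = (-x, y)` and `ρ (x, y) = ((x + 3) / (1 - x),
- 8 y / (1 - x)³)`, which generate a group isomorphic to the symmetric group of degree three.  The
quotient by `ρ` is the conic `v² = 18 D w² + 6 D`, whose class group has exponent `4`; the quotient by `σ` is
the elliptic curve `E_D : Y² = X³ + 16 D³`, `X = D (x² - 5) / 2`, `Y = D y / 4`.  We prove that the map
`(P, Q) ↦ φ*(P) + ρ* φ*(Q)` from `E_D(k)²` to the class group has kernel and cokernel of finite exponent.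
(Near a point of the conic, and for the points `x = ± 1`, one uses that `2 D` is not a square in `k`.)  The rank
of `E_D(k)` and the order of vanishing of `L(E_D/k, s)` at `1` are given by helper98's theorem
`InertPrimeTwists` for MP_32c55d_nt.  The number of points of `X_D` over the finite fields is computed with
character sums, following the library (H65/G4, the curve `y² = 2 x⁶ - 30 x⁴ + 150 x² + 6`, of rank zero).
-/

set_option autoImplicit false

namespace Pool.Agent.Results.MP_6dc9d1_nt.GenusTwoPositiveRank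

open NumberField IsDedekindDomain Polynomial
open scoped Classical

noncomputable section

/-- above the prime numbers other than three, only primes modulo which `2` is not a cube ramify in
`L/M`: if `σ ≠ 1` lies in the inertia group of the prime `w` of `L`, and `w` does not divide three, then
`2` is not a cube modulo the prime of `M` below `w` -/
def GoodRam (M L : Type) [Field M] [NumberField M] [Field L] [NumberField L] [Algebra M L] : Prop :=
  ∀ (w : HeightOneSpectrum (𝓞 L)) (σ : Gal(L/M)), (3 : 𝓞 L) ∉ w.asIdeal →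
    (∀ x : 𝓞 L, σ • x - x ∈ w.asIdeal) → σ ≠ 1 → ∀ α : 𝓞 M, α ^ 3 - 2 ∉ w.asIdeal.under (𝓞 M)

/-- the curve `y² = x³ + 16 d³` over the rational numbers -/
def E (d : ℤ) : WeierstrassCurve ℚ := ⟨0, 0, 0, 0, 16 * (d : ℚ) ^ 3⟩

/-- `W(k)` is finitely generated of rank `r` -/
def HasRank {k : Type} [Field k] (W : WeierstrassCurve k) (r : ℕ) : Prop :=
  Module.Finite ℤ W.toAffine.Point ∧ Module.finrank ℤ W.toAffine.Point = r

/-- the L-series of `W/ℚ` continues analytically from `Re s > 3/2` to a connected open set containing `1`,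
where its order of vanishing is `r` -/
def HasOrder (W : WeierstrassCurve ℚ) (r : ℕ) : Prop :=
  ∃ (U : Set ℂ) (Φ : ℂ → ℂ), IsOpen U ∧ IsConnected U ∧ {s : ℂ | (3 / 2 : ℝ) < s.re} ⊆ U ∧
    (1 : ℂ) ∈ U ∧ AnalyticOnNhd ℂ Φ U ∧ (∀ s : ℂ, (3 / 2 : ℝ) < s.re → Φ s = W.LSeries s) ∧
    analyticOrderAt Φ 1 = r

/-- The number of points over the finite field `E` of the smooth projective curve
`y² = D (2 x⁶ - 30 x⁴ + 150 x² + 6)`: the affine points, and the points at infinity, one for each square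
root of `2 D` in `E`. -/
def points (E : Type) [Field E] (D : E) : ℕ :=
  Nat.card {P : E × E // P.2 ^ 2 = D * (2 * P.1 ^ 6 - 30 * P.1 ^ 4 + 150 * P.1 ^ 2 + 6)} +
    Nat.card {z : E // z ^ 2 = 2 * D}

/-- The polynomial `y² - D (2 x⁶ - 30 x⁴ + 150 x² + 6)`. -/
def curvePoly (k : Type) [Field k] (D : k) : k[X][X] :=
  X ^ 2 - C (C D * (2 * X ^ 6 - 30 * X ^ 4 + 150 * X ^ 2 + 6))

/-- The coordinate ring `k[x, y] / (y² - D (2 x⁶ - 30 x⁴ + 150 x² + 6))` of the affine curve. -/
def CoordRing (k : Type) [Field k] (D : k) : Type := AdjoinRoot (curvePoly k D)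

instance commRing_coordRing (k : Type) [Field k] (D : k) : CommRing (CoordRing k D) :=
  inferInstanceAs (CommRing (AdjoinRoot (curvePoly k D)))

/-- The rank of `CH¹(X_D)₀` is `r` for `X_D : y² = D (2 x⁶ - 30 x⁴ + 150 x² + 6)` over `k`: `2 D` is not a square
in `k`, so that there is one closed point `∞` at infinity, of degree `2`; the coordinate ring of the affine
curve is a Dedekind domain; and its class group, which is `Pic(X_D) / ⟨∞⟩` and contains `CH¹(X_D)₀ = Pic⁰(X_D)`
(with index `1` or `2`), has rank `r` (for `r = 0`: it is a torsion group). -/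
def ChowRank (k : Type) [Field k] (D : k) (r : ℕ) : Prop :=
  ¬ IsSquare (2 * D) ∧ ∃ _ : IsDomain (CoordRing k D), IsDedekindDomain (CoordRing k D) ∧
    Module.rank ℤ (Additive (ClassGroup (CoordRing k D))) = r

/-- `Λ` is, for `Re s > 3/2`, the `L`-function of `H¹(X_D)`, `X_D : y² = D (2 x⁶ - 30 x⁴ + 150 x² + 6)`, over `k`
without the Euler factors at the places `v` dividing `6 D`: the product over the other places of
`∏_{j = 1}^{4} (1 - α_{v,j} q_v^(-s))⁻¹`, where `q_v` is the number of elements of the residue field of `v`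
and the `α_{v,j}` are the eigenvalues of Frobenius: for all `n ≥ 1` the number of points of the reduction
of `X_D` over the extension of degree `n` of the residue field (a field `E` with `q_v ^ n` elements with a
map `φ : 𝓞 k → E` of kernel `v`) is `q_v ^ n + 1 - ∑ α_{v,j} ^ n`. -/
def IsLFunction (k : Type) [Field k] [NumberField k] (D : 𝓞 k) (Λ : ℂ → ℂ) : Prop :=
  ∃ α : HeightOneSpectrum (𝓞 k) → Fin 4 → ℂ,
    (∀ v : HeightOneSpectrum (𝓞 k), 6 * D ∉ v.asIdeal →
      ∀ n : ℕ, 1 ≤ n → ∀ (E : Type) [Field E] [Finite E] (φ : 𝓞 k →+* E),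
        RingHom.ker φ = v.asIdeal → Nat.card E = Nat.card (𝓞 k ⧸ v.asIdeal) ^ n →
          (points E (φ D) : ℂ) = (Nat.card E : ℂ) + 1 - ∑ j, α v j ^ n) ∧
    ∀ s : ℂ, (3 : ℝ) / 2 < s.re → HasProd (fun v : HeightOneSpectrum (𝓞 k) =>
      open Classical in
      if 6 * D ∈ v.asIdeal then 1 else
        (∏ j, (1 - α v j * (Nat.card (𝓞 k ⧸ v.asIdeal) : ℂ) ^ (-s)))⁻¹) (Λ s)

/-- `L(H¹(X_D), s)`, without the Euler factors at the places dividing `6 D`, continues analytically from
`Re s > 3/2` to a connected open set containing `1`, where its order of vanishing is `r` (for `r = 0`: it is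
not zero at `1`). -/
def LOrder (k : Type) [Field k] [NumberField k] (D : 𝓞 k) (r : ℕ) : Prop :=
  ∃ (U : Set ℂ) (Λ : ℂ → ℂ), IsOpen U ∧ IsConnected U ∧ {s : ℂ | (3 / 2 : ℝ) < s.re} ⊆ U ∧
    (1 : ℂ) ∈ U ∧ AnalyticOnNhd ℂ Λ U ∧ IsLFunction k D Λ ∧ analyticOrderAt Λ 1 = r

/-! ### Proof -/

open Pool.Agent.K7.H70.TW (Ed)
open Pool.Agent.H98.Q (Dd Pd BaseOrd)

lemma hasRank {k : Type} [Field k] {W : WeierstrassCurve k} {r : ℕ} (hfg : AddGroup.FG W.toAffine.Point)
    (h : Module.finrank ℤ W.toAffine.Point = r) : HasRank W r :=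
  ⟨Module.Finite.iff_addGroup_fg.2 hfg, h⟩

/-- `2 D` is not a square -/
lemma not_sq {d : ℤ} (hd : Odd d) (hd0 : d ≠ 0) {K : Type} [Field K] [NumberField K]
    (hp : (Ideal.span {(d : 𝓞 K)}).IsPrime) {D : K} (hD : D ≠ 0) (hsq : IsSquare (D * d)) :
    ¬ IsSquare (2 * D) := by
  rintro ⟨t, ht⟩
  obtain ⟨e, he⟩ := hsq
  have hdK : (d : K) ≠ 0 := Int.cast_ne_zero.2 hd0
  have hdO : (d : 𝓞 K) ≠ 0 := Int.cast_ne_zero.2 hd0
  have hr : (2 : K) * d = (t * e / D) * (t * e / D) := by
    field_simp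
    linear_combination d * D * ht + t * t * he
  set r := t * e / D with hrd
  have hint : IsIntegral ℤ r := by
    refine IsIntegral.of_pow (n := 2) (by norm_num) ?_
    rw [pow_two, ← hr]
    have := isIntegral_algebraMap (R := ℤ) (A := K) (x := 2 * d)
    simpa using this
  obtain ⟨s, hs⟩ : ∃ s : 𝓞 K, (s : K) = r := ⟨⟨r, hint⟩, rfl⟩
  have h1 : 2 * (d : 𝓞 K) = s * s := by
    apply RingOfIntegers.ext
    have e1 : ((s * s : 𝓞 K) : K) = r * r := by rw [← hs]; rfl
    have e2 : ((2 * (d : 𝓞 K) : 𝓞 K) : K) = 2 * d := by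
      show algebraMap (𝓞 K) K (2 * (d : 𝓞 K)) = _
      rw [map_mul, map_ofNat, map_intCast]
    exact e2.trans (hr.trans e1.symm)
  have hpr : Prime (d : 𝓞 K) := (Ideal.span_singleton_prime hdO).1 hp
  have h3 : (d : 𝓞 K) ∣ s := by
    rcases hpr.dvd_or_dvd (show (d : 𝓞 K) ∣ s * s from ⟨2, by rw [← h1]; ring⟩) with h | h <;> exact h
  obtain ⟨u, rfl⟩ := h3
  have h4 : (2 : 𝓞 K) = d * (u * u) := by
    apply mul_left_cancel₀ hdO
    linear_combination h1
  apply hpr.not_isUnit
  obtain ⟨c, hc⟩ := hd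
  refine IsUnit.of_mul_eq_one (1 - c * (u * u)) ?_
  have hc' : (d : 𝓞 K) = 2 * c + 1 := by
    rw [hc]
    push_cast
    ring
  linear_combination (c : 𝓞 K) * h4 + hc'

/-- the two sides in terms of the elliptic curve -/
lemma sides {k : Type} [Field k] [NumberField k] {D : 𝓞 k} (hD : D ≠ 0) (h2 : ¬ IsSquare (2 * (D : k)))
    {r m : ℕ} (hfin : Module.Finite ℤ (Ed (D : k)).toAffine.Point)
    (hrk : Module.finrank ℤ (Ed (D : k)).toAffine.Point = r)
    (hb : ∀ v : HeightOneSpectrum (𝓞 k), Pool.Agent.Y696.HBd (Pool.Agent.W189.NF.aV (Ed (D : k)) v)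
      (Pool.Agent.W189.NF.eV (Ed (D : k)) v) (Pool.Agent.H921R2.TatePole.nm v))
    (hB : Pool.Agent.H98.B.Bsd (Ed (D : k)) m) : ChowRank k D (2 * r) ∧ LOrder k D (2 * m) := by
  have hD' : (D : k) ≠ 0 := fun h => hD (RingOfIntegers.ext h)
  have hne : NeZero (D : k) := ⟨hD'⟩
  have hd : IsDomain (Pool.Agent.TH943.HJ.CR (Pool.Agent.H81.GD.sx (D : k))) :=
    Pool.Agent.K7.H65.G4.isDomain (Pool.Agent.H81.GD.ns_sx h2)
  refine ⟨⟨h2, hd, Pool.Agent.H81.GD.ded_sx h2, ?_⟩, ?_⟩
  · have h1 := Pool.Agent.H81.GD.rank_X h2 (Ed (D : k)).toAffine rfl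
    refine h1.trans ?_
    rw [← hrk]
  · obtain ⟨U, Φ, u1, u2, u3, u4, u5, u6, u7, u8⟩ := hB
    have ho : analyticOrderAt Φ 1 = m :=
      (analyticOrderAt_eq_nat_iff_iteratedDeriv_eq_zero (u5 1 u4)).2 ⟨u7, u8⟩
    obtain ⟨Λ, l1, l2, l3⟩ := Pool.Agent.H81.GD.exists_LX D hD hb u4 u5 ho (fun s hs => u6 s hs)
    exact ⟨U, Λ, u1, u2, u3, u4, l1, l2, l3⟩

/-- the curves over one field -/
lemma main {d : ℤ} (hd : Dd d) {m0 : ℕ} (hm0 : 1 ≤ m0) (hB : BaseOrd d m0)
    (M L K k : Type) [Field M] [NumberField M] [IsCyclotomicExtension {3} ℚ M]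
    [Field L] [NumberField L] [Algebra M L] [IsGalois M L] [Field K] [NumberField K] [Algebra K L]
    [Field k] [NumberField k] [Algebra k K]
    (hn : ∃ n : ℕ, Module.finrank M L = 2 ^ n) (hg : GoodRam M L)
    (h5 : (Ideal.span {(d : 𝓞 K)}).IsPrime) (hω : ∃ ω : k, ω ^ 2 + ω + 1 = 0)
    (D : 𝓞 k) (hD : D ≠ 0) (hsq : IsSquare (algebraMap k K D * d)) :
    (IsSquare ((D : k) * d) → ChowRank k D (2 * if Pool.Agent.H98.R.Tw d M then 0 else 2) ∧
      LOrder k D (2 * (2 * m0))) ∧
    (¬ IsSquare ((D : k) * d) → ChowRank k D 0 ∧ LOrder k D 0) := by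
  obtain ⟨ω, hω⟩ := hω
  have hD' : (D : k) ≠ 0 := fun h => hD (RingOfIntegers.ext h)
  have hd0 : d ≠ 0 := by
    rintro rfl
    exact absurd hd.1 (by norm_num)
  have hdk : (d : k) ≠ 0 := Int.cast_ne_zero.2 hd0
  have hdK : (d : K) ≠ 0 := Int.cast_ne_zero.2 hd0
  have hodd : Odd d := by
    have := hd.m4
    exact Int.odd_iff.2 (by omega)
  have hG : Pool.Agent.K7.H56.P.Gd M L := Pool.Agent.K7.H56.P.gd_of fun w hw h3 α hα => by
    obtain ⟨σ, hσ, hin⟩ := hw
    refine hg w σ (fun h => h3 ?_) hin hσ α hα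
    show algebraMap (𝓞 M) (𝓞 L) 3 ∈ w.asIdeal
    rw [map_ofNat]
    exact h
  have hU : Pool.Agent.K7.H56.Unr2 L := by
    obtain ⟨r, hr'⟩ := hn
    exact ((Pool.Agent.K7.H73.L3.gz3 M).step hr' hG).two
  have ha : (2 * ω + 1) ^ 2 = -3 := by linear_combination 4 * hω
  -- `2 D` is not a square
  have h2 : ¬ IsSquare (2 * (D : k)) := by
    intro h
    refine not_sq hodd hd0 h5 ((_root_.map_ne_zero (algebraMap k K)).2 hD') hsq ?_
    have := h.map (algebraMap k K)
    rwa [map_mul, map_ofNat] at this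
  obtain ⟨e, he⟩ := hsq
  have he0 : e ≠ 0 := by
    rintro rfl
    rw [mul_zero] at he
    exact mul_ne_zero ((_root_.map_ne_zero (algebraMap k K)).2 hD') hdK he
  -- the twist
  obtain ⟨δ, hδ⟩ : ∃ δ : k, δ = (D : k) / d := ⟨_, rfl⟩
  have hδ0 : δ ≠ 0 := by rw [hδ]; exact div_ne_zero hD' hdk
  have hdδ : (d : k) * δ = D := by rw [hδ]; field_simp
  have heδ : (e / d) ^ 2 = algebraMap k K δ := by
    rw [hδ, map_div₀, map_intCast, div_pow, pow_two e, ← he]
    field_simp
  obtain ⟨hb, hBs⟩ := Pool.Agent.H98.Q.an_main hd hm0 hB hn hU hG ha h5 hδ0 heδ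
  have hsqi : IsSquare δ ↔ IsSquare ((D : k) * d) := by
    constructor
    · rintro ⟨c, hc⟩
      exact ⟨c * d, by rw [← hdδ, hc]; ring⟩
    · rintro ⟨c, hc⟩
      refine ⟨c / d, ?_⟩
      rw [hδ]
      field_simp
      linear_combination hc
  have hu : IsUnit (e / (d : K)) := (div_ne_zero he0 hdK).isUnit
  obtain ⟨u, hu⟩ := hu
  have hC : (⟨u, 0, 0, 0⟩ : WeierstrassCurve.VariableChange K) •
      (Ed ((d : k) * δ)).map (algebraMap k K) = Ed (d : K) := by
    rw [WeierstrassCurve.variableChange_def]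
    ext
    · simp
    · simp
    · simp
    · simp
    · show ((u⁻¹ : Kˣ) : K) ^ 6 * _ = 16 * (d : K) ^ 3
      have hu0 : ((u : Kˣ) : K) ≠ 0 := u.ne_zero
      have e1 : ((u : Kˣ) : K) ^ 2 = algebraMap k K δ := by rw [hu, heδ]
      simp only [WeierstrassCurve.map_a₁, WeierstrassCurve.map_a₂, WeierstrassCurve.map_a₃,
        WeierstrassCurve.map_a₄, WeierstrassCurve.map_a₆, map_zero, map_mul, map_pow, map_ofNat,
        map_intCast]
      rw [← e1, Units.val_inv_eq_inv_val]
      field_simp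
      ring
  obtain ⟨g1, g2, g3⟩ := Pool.Agent.H98.R.main hd hm0 hB hn hG hω h5 (Ed ((d : k) * δ)) _ hC
  have htriv := Pool.Agent.H98.R.triv_iff hω (Ed ((d : k) * δ)) hdk hδ0 1 (one_smul _ _)
  rw [hdδ] at hb hBs g1 g2 g3 htriv
  have hfin : Module.Finite ℤ (Ed (D : k)).toAffine.Point := Module.Finite.iff_addGroup_fg.2 g1
  refine ⟨fun h => ?_, fun h => ?_⟩
  · have hsδ := hsqi.2 h
    obtain ⟨f1, -⟩ := g2 (htriv.2 hsδ)
    rw [if_pos hsδ] at hBs
    exact sides hD h2 hfin f1 hb hBs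
  · have hsδ : ¬ IsSquare δ := fun h' => h (hsqi.1 h')
    obtain ⟨f1, -⟩ := g3 fun h' => hsδ (htriv.1 h')
    rw [if_neg hsδ] at hBs
    exact sides (r := 0) (m := 0) hD h2 hfin (Pool.Agent.H98.A.rank_fin f1) hb hBs

/-- the quadratic subextension -/
lemma exists_D {d : ℤ} (hd : d ≠ 0) {M K : Type} [Field M] [NumberField M] [Field K] [NumberField K]
    [Algebra M K] [IsGalois M K] (hc : IsCyclic Gal(K/M)) {n : ℕ} (hn : n ≠ 0)
    (hK : Module.finrank M K = 2 ^ n) :
    ∃ D : 𝓞 M, D ≠ 0 ∧ IsSquare (algebraMap M K D * d) ∧ ¬ IsSquare ((D : M) * d) := by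
  obtain ⟨δ, h0, h1, e, he⟩ := Pool.Agent.H81.GD.exists_delta hc hn hK
  have hdM : (d : M) ≠ 0 := Int.cast_ne_zero.2 hd
  have hc' : (((d : 𝓞 M) * δ : 𝓞 M) : M) = d * δ := by
    show algebraMap (𝓞 M) M ((d : 𝓞 M) * δ) = _
    rw [map_mul, map_intCast]
  refine ⟨(d : 𝓞 M) * δ, mul_ne_zero (Int.cast_ne_zero.2 hd) h0, ⟨e * d, ?_⟩, ?_⟩
  · rw [hc', map_mul, map_intCast, he]
    ring
  · rintro ⟨s, hs⟩
    apply h1
    refine ⟨s / d, ?_⟩
    rw [hc'] at hs
    field_simp
    linear_combination hs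

/-- **Main theorem.**  Let `d = ± q ≡ 1 (mod 4)` where `q ≡ 2 (mod 3)` is a prime number.  Let `ρ` be the
rank of `E_d(ℚ)`, for `E_d : y² = x³ + 16 d³`, and `m` the order of vanishing of the L-series of `E_d/ℚ` at
`1`.  Then `m` is odd and `ρ ≤ 1`, and `m = ρ = 1` if `d = 5`.

(1) Let `L` be a Galois extension of `M = ℚ(√-3)` whose degree is a power of two, in which no prime of `M`
ramifies that is not above three and modulo which `2` is a cube.  Let `k ⊆ K ⊆ L` with `√-3 ∈ k`, such that `q`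
generates a prime ideal of the ring of integers of `K`, and let `D ≠ 0` be an integer of `k` such that `D d` is a
square in `K`.  For the curve `X_D : y² = D (2 x⁶ - 30 x⁴ + 150 x² + 6)` of genus `2` over `k`, the two sides of
Beilinson's conjecture, `i = 0`, are `4 ρ` (the rank of `CH¹(X_D)₀`) and `4 m` (the order of vanishing of
`L(H¹(X_D), s)` at `1`) if `D d` is a square in `k`, and they are both `0` if not.

(2) For all `n ≥ 1` and `B` there is such a field `K = L` which is cyclic of degree `2 ^ n` over `M` and in which a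
prime of `M` of norm larger than `B` is totally ramified; so there are infinitely many of every degree.  There is
an integer `D ≠ 0` of `k = M` such that `D d` is a square in `K` and not in `M`. -/
theorem result : ∀ d : ℤ, d.natAbs.Prime → d.natAbs % 3 = 2 → d % 4 = 1 →
    (∃ m ρ : ℕ, Odd m ∧ ρ ≤ 1 ∧ (d = 5 → m = 1 ∧ ρ = 1) ∧ HasRank (E d) ρ ∧ HasOrder (E d) m ∧
    ∀ (M L K k : Type) [Field M] [NumberField M] [IsCyclotomicExtension {3} ℚ M]
    [Field L] [NumberField L] [Algebra M L] [IsGalois M L] [Field K] [NumberField K] [Algebra K L]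
    [Field k] [NumberField k] [Algebra k K],
    (∃ n : ℕ, Module.finrank M L = 2 ^ n) → GoodRam M L → (Ideal.span {(d : 𝓞 K)}).IsPrime →
    (∃ ω : k, ω ^ 2 + ω + 1 = 0) → ∀ D : 𝓞 k, D ≠ 0 → IsSquare (algebraMap k K D * d) →
      (IsSquare ((D : k) * d) → ChowRank k D (4 * ρ) ∧ LOrder k D (4 * m)) ∧
      (¬ IsSquare ((D : k) * d) → ChowRank k D 0 ∧ LOrder k D 0)) ∧
    ∀ (M : Type) [Field M] [NumberField M] [IsCyclotomicExtension {3} ℚ M] (n B : ℕ), n ≠ 0 →
      ∃ (K : Type) (_ : Field K) (_ : NumberField K) (_ : Algebra M K) (_ : IsGalois M K),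
        IsCyclic Gal(K/M) ∧ Module.finrank M K = 2 ^ n ∧ GoodRam M K ∧
        (Ideal.span {(d : 𝓞 K)}).IsPrime ∧ (∃ ω : M, ω ^ 2 + ω + 1 = 0) ∧
        (∃ D : 𝓞 M, D ≠ 0 ∧ IsSquare (algebraMap M K D * d) ∧ ¬ IsSquare ((D : M) * d)) ∧
        ∃ w : HeightOneSpectrum (𝓞 K), B < Ideal.absNorm (w.asIdeal.under (𝓞 M)) ∧
          ∀ (σ : Gal(K/M)) (x : 𝓞 K), σ • x - x ∈ w.asIdeal := by
  intro d h1 h2 h3
  have hd : Dd d := ⟨h1, h2, h3⟩
  refine ⟨?_, fun M _ _ _ n B hn => ?_⟩
  swap
  · obtain ⟨K, _, _, _, _, c1, c2, c3, c4, -, c6⟩ := Pool.Agent.H98.W.fields hd M n B hn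
    exact ⟨K, inferInstance, inferInstance, inferInstance, inferInstance, c1, c2, c3, c4,
      (Pool.Agent.K7.H73.L3.gz3 M).om, exists_D (Int.natAbs_ne_zero.1 h1.ne_zero) c1 hn c2, c6⟩
  obtain ⟨m, cc, hm, hB⟩ := Pool.Agent.H98.W.lead_ex hd
  have hcyc : IsCyclotomicExtension {3} ℚ (CyclotomicField 3 ℚ) :=
    CyclotomicField.isCyclotomicExtension 3 ℚ
  have hpC : Pd d (CyclotomicField 3 ℚ) := Pool.Agent.H98.V.pd_cyc hd (CyclotomicField 3 ℚ)
  have hgC := Pool.Agent.K7.H73.L3.gz3 (CyclotomicField 3 ℚ)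
  have hlow := Pool.Agent.H98.W.low_Q hd (CyclotomicField 3 ℚ)
  have hE0 : E d = Ed (d : ℚ) := rfl
  rw [hE0]
  refine ⟨m, if Pool.Agent.H98.R.Tw d (CyclotomicField 3 ℚ) then 0 else 1, hm, by split_ifs <;> norm_num,
    ?_, hasRank hlow.fg ?_, ?_, ?_⟩
  · intro h5
    subst h5
    exact ⟨Pool.Agent.H98.W.lead_five hB, if_neg (Pool.Agent.H98.V.tw_five hgC hd hpC)⟩
  · by_cases hT : Pool.Agent.H98.R.Tw d (CyclotomicField 3 ℚ)
    · rw [if_pos hT]
      exact hlow.zero hT
    · rw [if_neg hT]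
      exact hlow.one hT
  · obtain ⟨U, Φ, u1, u2, u3, u4, u5, u6, u7, u8⟩ := (Pool.Agent.H98.W.lead_Q hd hB).1.bsd
    exact ⟨U, Φ, u1, u2, u3, u4, u5, u6,
      (analyticOrderAt_eq_nat_iff_iteratedDeriv_eq_zero (u5 1 u4)).2 ⟨u7, u8⟩⟩
  intro M L K k _ _ _ _ _ _ _ _ _ _ _ _ _ hn hg h5 hω D hD hsq
  obtain ⟨g1, g2⟩ := main hd hm.pos hB.ord M L K k hn hg h5 hω D hD hsq
  refine ⟨fun h => ?_, g2⟩
  obtain ⟨f1, f2⟩ := g1 h
  have e1 : 2 * (2 * m) = 4 * m := by ring
  rw [e1] at f2
  refine ⟨?_, f2⟩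
  by_cases hT : Pool.Agent.H98.R.Tw d M
  · rw [if_pos hT] at f1
    rw [if_pos (Pool.Agent.H98.R.tw_base hd M (CyclotomicField 3 ℚ) hT)]
    exact f1
  · rw [if_neg hT] at f1
    rw [if_neg fun h' => hT (Pool.Agent.H98.R.tw_base hd (CyclotomicField 3 ℚ) M h')]
    exact f1

end

end Pool.Agent.Results.MP_6dc9d1_nt.GenusTwoPositiveRank
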