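import Pool.Agent.H81.TE.Gen2
import Pool.Agent.H62.EX.Done
import Pool.Agent.H40.EX.A1
import Pool.Agent.H81.TE.Share

/-!
# Beilinson's conjecture for a curve of genus two over cyclic 3-extensions of `ℚ(√-3)` with any number of ramified primes

Let `X` be the smooth projective curve of genus `2` with the affine equation

`y² = 2 x⁶ - 30 x⁴ + 150 x² + 6 = 2 (x² - 5)³ + 256`.

Let `F = ℚ(√-3)` and let `K/F` be a Galois extension of degree `3 ^ n`, `n ≥ 1`, unramified outside the prime
elements `π` in a finite set `S`, such that either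

(a) `S = {π}`, `π ≡ 1` modulo `3` and `π ≢ 1` modulo `9` (then `K/F` is necessarily cyclic), or

(b) `K/F` is cyclic, `K` has one prime above three and is totally ramified at the `π` in `S`, `π ≡ 1` modulo `3 √-3`, and
`N(π) ≡ 1` modulo `3 ^ (n + 1)` if `n ≠ 1`, and (R): a product of powers of the `π` that is a cube in the
completions of `K` at the primes above the `π` is a cube in `K`.

(For two primes `π`, `π'` the condition (R) says that `π` is not a cube modulo `π'`; in general it says that the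
matrix of the cubic residue symbols, with the diagonal of a Laplace matrix, has the largest possible rank.)

Theorem: Beilinson's conjecture for `X` over `k`, `i = 0`, is true for all the intermediate fields `F ⊆ k ⊆ K`: both
sides are `0`.

* `2` is not a square in `k`, so that the curve `X` over `k` has one closed point `∞` at infinity, of
  degree `2`, and `CH¹(X)₀ = Pic⁰(X)` is a subgroup (of index `1` or `2`) of `Pic(X) / ⟨∞⟩`, which is
  the class group of the coordinate ring `k[x, y] / (y² - (2 x⁶ - 30 x⁴ + 150 x² + 6))` of the affine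
  curve, a Dedekind domain.  This class group is killed by an integer `n > 0`, so `CH¹(X)₀ ⊗ ℚ = 0`.
* `L(H¹(X), s)`, without the Euler factors at the places that divide `6`, continues to a meromorphic
  function on `ℂ` which is analytic and not `0` at `s = 1`.

There are infinitely many such `K` for every degree `3 ^ n` and every number of ramified primes (part (2)), and they
are frequent (part (3)): let `e 0, .., e m` be prime to three.  For more than a third of all tuples of `m + 1`
different primes `q i` of `F` with norms `N(q i) ≡ 1` modulo `3 ^ (n + 1)` (in the sense of an iterated limit) there is such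
a field `K` of degree `3 ^ n`, ramified exactly at the `q i`, which contains a cube root of `∏ a i ^ e i`, `a i ≡ 1`
modulo `3 √-3` the generator of `q i`.

In case (b) with `m + 1` primes the Tate-Shafarevich group of the Jacobian has an unbounded 3-part (`Ш[3]` of
`E : y² + y = x³` over `K` has `9 ^ m` elements).  The value of the `L`-function is divisible by a high power
of three, and it is not zero as its leading term modulo a higher power of the prime above three is a sum over
spanning trees of the graph of the cubic residue symbols, a minor of the Laplace matrix.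

Proof.  The Jacobian of `X` is isogenous to `E²`.  The input on `E` over `K` (finiteness of `E(K)` and
`L(E/K, 1) ≠ 0`) is proved for MP_f50388 by helper62, helper40, helper47 and helper81, the step to the intermediate
fields `k` is proved for MP_32c55d (`L(E/K, s)` is a product of the functions `L(ψ χ, s)` and their conjugates), and the
passage from `E` to `X` (class group of the coordinate ring, numbers of points) is proved in the library.
-/

set_option autoImplicit false

namespace Pool.Agent.Results.MP_6dc9d1_nt.GenusTwoThreeExtensions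

open NumberField IsDedekindDomain Polynomial
open scoped Classical

noncomputable section

/-- The number of points over the finite field `E` of the smooth projective curve
`y² = 2 x⁶ - 30 x⁴ + 150 x² + 6`: the affine points, and the points at infinity, one for each square
root of `2` in `E`. -/
def points (E : Type) [Field E] : ℕ :=
  Nat.card {P : E × E // P.2 ^ 2 = 2 * P.1 ^ 6 - 30 * P.1 ^ 4 + 150 * P.1 ^ 2 + 6} +
    Nat.card {z : E // z ^ 2 = 2}

/-- The polynomial `y² - (2 x⁶ - 30 x⁴ + 150 x² + 6)`. -/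
def curvePoly (k : Type) [Field k] : k[X][X] := X ^ 2 - C (2 * X ^ 6 - 30 * X ^ 4 + 150 * X ^ 2 + 6)

/-- The coordinate ring `k[x, y] / (y² - (2 x⁶ - 30 x⁴ + 150 x² + 6))` of the affine curve. -/
def CoordRing (k : Type) [Field k] : Type := AdjoinRoot (curvePoly k)

instance commRing_coordRing (k : Type) [Field k] : CommRing (CoordRing k) :=
  inferInstanceAs (CommRing (AdjoinRoot (curvePoly k)))

/-- `CH¹(X)₀ ⊗ ℚ = 0` for `X : y² = 2 x⁶ - 30 x⁴ + 150 x² + 6` over `k`: `2` is not a square in `k`, so that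
there is one closed point `∞` at infinity, of degree `2`; the coordinate ring of the affine curve is a
Dedekind domain; and its class group, which is `Pic(X) / ⟨∞⟩` and contains `CH¹(X)₀ = Pic⁰(X)` (with index
`1` or `2`), is killed by some `n > 0`. -/
def ChowTorsion (k : Type) [Field k] : Prop :=
  ¬ IsSquare (2 : k) ∧ ∃ _ : IsDomain (CoordRing k), IsDedekindDomain (CoordRing k) ∧
    ∃ n : ℕ, 0 < n ∧ ∀ a : ClassGroup (CoordRing k), a ^ n = 1

/-- `Λ` is meromorphic on `ℂ` and it is, for `Re s > 3/2`, the `L`-function of `H¹(X)`,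
`X : y² = 2 x⁶ - 30 x⁴ + 150 x² + 6`, over `k` without the Euler factors at the places `v` dividing `6`: the
product over the other places of `∏_{j = 1}^{4} (1 - α_{v,j} q_v^(-s))⁻¹`, where `q_v` is the number of
elements of the residue field of `v` and the `α_{v,j}` are the eigenvalues of Frobenius: for all `n ≥ 1` the
number of points of the reduction of `X` over the extension of degree `n` of the residue field (a field
`E` with `q_v ^ n` elements with a map `φ : 𝓞 k → E` of kernel `v`) is `q_v ^ n + 1 - ∑ α_{v,j} ^ n`. -/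
def IsLFunction (k : Type) [Field k] (Λ : ℂ → ℂ) : Prop :=
  MeromorphicOn Λ Set.univ ∧ ∃ α : HeightOneSpectrum (𝓞 k) → Fin 4 → ℂ,
    (∀ v : HeightOneSpectrum (𝓞 k), (6 : 𝓞 k) ∉ v.asIdeal →
      ∀ n : ℕ, 1 ≤ n → ∀ (E : Type) [Field E] [Finite E] (φ : 𝓞 k →+* E),
        RingHom.ker φ = v.asIdeal → Nat.card E = Nat.card (𝓞 k ⧸ v.asIdeal) ^ n →
          (points E : ℂ) = (Nat.card E : ℂ) + 1 - ∑ j, α v j ^ n) ∧
    ∀ s : ℂ, (3 : ℝ) / 2 < s.re → HasProd (fun v : HeightOneSpectrum (𝓞 k) =>
      open Classical in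
      if (6 : 𝓞 k) ∈ v.asIdeal then 1 else
        (∏ j, (1 - α v j * (Nat.card (𝓞 k ⧸ v.asIdeal) : ℂ) ^ (-s)))⁻¹) (Λ s)

/-- (R): a product of powers of the elements of `S` that is a cube in the completions of `K` at all the primes
above the elements of `S` is a cube in `K`. -/
def LocalCubes (F K : Type) [Field F] [NumberField F] [Field K] [NumberField K] [Algebra F K]
    (S : Finset (𝓞 F)) : Prop :=
  ∀ x : 𝓞 F → ℕ,
    (∀ v : HeightOneSpectrum (𝓞 K), (∃ π ∈ S, algebraMap (𝓞 F) (𝓞 K) π ∈ v.asIdeal) →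
      ∃ y : v.adicCompletion K,
        y ^ 3 = algebraMap K (v.adicCompletion K) (algebraMap F K (∏ π ∈ S, π ^ x π : 𝓞 F))) →
    ∃ z : K, z ^ 3 = algebraMap F K (∏ π ∈ S, π ^ x π : 𝓞 F)

/-- Case (a): there is only one prime element `π` in `S`, `π ≡ 1` modulo `3` and `π ≢ 1` modulo `9`.  (`K / F` is
then necessarily cyclic, totally ramified at `π`, with one prime above three.) -/
def OnePrime (F : Type) [Field F] [NumberField F] (S : Finset (𝓞 F)) : Prop :=
  ∃ π : 𝓞 F, S = {π} ∧ Prime π ∧ 3 ∣ π - 1 ∧ ¬ 9 ∣ π - 1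

/-- Case (b): `S` is a nonempty set of prime elements `π`, `π ≡ 1` modulo `3 √-3`, and `N(π) ≡ 1` modulo
`3 ^ (n + 1)` if `n ≠ 1`; `K / F` is cyclic, totally ramified at the `π`, `K` has one prime above three, and
(R) holds. -/
structure SeveralPrimes (F K : Type) [Field F] [NumberField F] [Field K] [NumberField K] [Algebra F K]
    (n : ℕ) (S : Finset (𝓞 F)) : Prop where
  cyclic : IsCyclic Gal(K/F)
  nonempty : S.Nonempty
  prime : ∀ π ∈ S, Prime π
  congr : ∀ π ∈ S, ∀ θ : 𝓞 F, θ ^ 2 = -3 → 3 * θ ∣ π - 1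
  norm : n ≠ 1 → ∀ π ∈ S, 3 ^ (n + 1) ∣ Ideal.absNorm (Ideal.span {π}) - 1
  totallyRamified : ∀ π ∈ S, ∀ v : HeightOneSpectrum (𝓞 K), algebraMap (𝓞 F) (𝓞 K) π ∈ v.asIdeal →
    ∀ (g : Gal(K/F)) (x : 𝓞 K), g • x - x ∈ v.asIdeal
  one_prime_above_three : ∀ v w : HeightOneSpectrum (𝓞 K), 3 ∈ v.asIdeal → 3 ∈ w.asIdeal → v = w
  localCubes : LocalCubes F K S

/-- The tuples of `m + 1` different primes `q i` of `F` with `N(q i) ≡ 1` modulo `3 ^ (n + 1)` and `N(q i) ≤ X i`. -/
def Tuples (F : Type) [Field F] [NumberField F] (n m : ℕ) (X : Fin (m + 1) → ℕ) :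
    Set (Fin (m + 1) → HeightOneSpectrum (𝓞 F)) :=
  {q | Function.Injective q ∧ ∀ i, 3 ^ (n + 1) ∣ Ideal.absNorm (q i).asIdeal - 1 ∧
    Ideal.absNorm (q i).asIdeal ≤ X i}

/-- For all large `X 0`, for all `X 1` large in terms of `X 0`, for all `X 2` large in terms of `X 0`, `X 1`, and so on,
`P X` is true. -/
def Nested : (m : ℕ) → ((Fin m → ℕ) → Prop) → Prop
  | 0, P => P Fin.elim0
  | m + 1, P => Nested m fun X => ∀ᶠ x : ℕ in Filter.atTop, P (Fin.snoc (α := fun _ => ℕ) X x)

/-- For `a i ≡ 1` modulo `3 √-3`, the generator of the prime `q i`: there is a Galois extension `K/F` of degree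
`3 ^ n`, ramified exactly at the `q i`, as in (b), which contains a cube root of `∏ a i ^ e i`. -/
def Good (F : Type) [Field F] [NumberField F] (n m : ℕ) (e : Fin (m + 1) → ℕ)
    (q : Fin (m + 1) → HeightOneSpectrum (𝓞 F)) : Prop :=
  ∃ a : Fin (m + 1) → 𝓞 F, (∀ i, (q i).asIdeal = Ideal.span {a i} ∧ ∃ θ : 𝓞 F, θ ^ 2 = -3 ∧ 3 * θ ∣ a i - 1) ∧
    ∃ (K : Type) (_ : Field K) (_ : NumberField K) (_ : Algebra F K), IsGalois F K ∧
      Module.finrank F K = 3 ^ n ∧
      (∀ w : HeightOneSpectrum (𝓞 K), (∀ i, algebraMap (𝓞 F) (𝓞 K) (a i) ∉ w.asIdeal) →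
        Algebra.IsUnramifiedAt (𝓞 F) w.asIdeal) ∧
      SeveralPrimes F K n (Finset.univ.image a) ∧
      ∃ b : K, b ^ 3 = algebraMap F K ((∏ i, a i ^ e i : 𝓞 F) : F)

lemma cases_iff {F K : Type} [Field F] [NumberField F] [Field K] [NumberField K] [Algebra F K]
    {n : ℕ} {S : Finset (𝓞 F)} (h : OnePrime F S ∨ SeveralPrimes F K n S) :
    Pool.Agent.H81.TE.OnePrime F S ∨ Pool.Agent.H81.TE.SeveralPrimes F K n S := by
  rcases h with h | h
  · exact Or.inl h
  · exact Or.inr ⟨h.cyclic, h.nonempty, h.prime, h.congr, h.norm, h.totallyRamified,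
      h.one_prime_above_three, h.localCubes⟩

/-- the first part -/
theorem main (F K : Type) [Field F] [NumberField F] [IsCyclotomicExtension {3} ℚ F] [Field K]
    [NumberField K] [Algebra F K] [IsGalois F K] (n : ℕ) (hn0 : n ≠ 0)
    (hn : Module.finrank F K = 3 ^ n) (S : Finset (𝓞 F))
    (hunr : ∀ w : HeightOneSpectrum (𝓞 K), (∀ π ∈ S, algebraMap (𝓞 F) (𝓞 K) π ∉ w.asIdeal) →
      Algebra.IsUnramifiedAt (𝓞 F) w.asIdeal)
    (hS : OnePrime F S ∨ SeveralPrimes F K n S)
    (k : Type) [Field k] [NumberField k] [Algebra F k] [Algebra k K] [IsScalarTower F k K] :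
    ChowTorsion k ∧ ∃ Λ : ℂ → ℂ, IsLFunction k Λ ∧ AnalyticAt ℂ Λ 1 ∧ Λ 1 ≠ 0 := by
  obtain ⟨h2, hd, hL⟩ := Pool.Agent.H81.TE.genus_two F K n hn0 hn S hunr (cases_iff hS) k
  exact ⟨⟨h2, hd⟩, hL⟩

theorem nested_iff : ∀ (m : ℕ) (P : (Fin m → ℕ) → Prop), Nested m P ↔ Pool.Agent.Q283.LQ.Nest m P
  | 0, _ => Iff.rfl
  | m + 1, _ => nested_iff m _

/-- **Main theorem.** (1) Let `F = ℚ(√-3)`, let `K/F` be a Galois extension of degree `3 ^ n`, `n ≥ 1`, which is
unramified outside the prime elements in the finite set `S`, and suppose that (a) or (b) holds.  Let `F ⊆ k ⊆ K` be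
an intermediate field.  For the curve `X : y² = 2 x⁶ - 30 x⁴ + 150 x² + 6` of genus `2` over `k` the two sides of
Beilinson's conjecture, `i = 0`, are `0`: `CH¹(X)₀` is killed by some `n > 0`, and `L(H¹(X), s)` continues to a
meromorphic function `Λ` on `ℂ` which is analytic at `s = 1`, with `Λ(1) ≠ 0`.
(2) There are infinitely many such fields, for every degree `3 ^ n` and every number `m + 1` of ramified primes: for
all `n ≥ 1`, `m` and `B` there are `K` and `S` with `m + 1` elements, whose norms are `> B`, as in (1), (b); for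
`m = 0` they are as in (1), (a), too.
(3) A positive proportion: let `e 0, .., e m` be prime to three.  More than a third of the tuples of `m + 1` different
primes `q i` of `F` with `N(q i) ≡ 1` modulo `3 ^ (n + 1)` are good: they are the primes ramified in such a field `K` of
degree `3 ^ n`, which contains a cube root of `∏ a i ^ e i`, `a i ≡ 1` modulo `3 √-3` the generator of `q i`. -/
theorem result :
    (∀ (F K : Type) [Field F] [NumberField F] [IsCyclotomicExtension {3} ℚ F] [Field K]
      [NumberField K] [Algebra F K] [IsGalois F K] (n : ℕ) (S : Finset (𝓞 F)), n ≠ 0 →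
      Module.finrank F K = 3 ^ n →
      (∀ w : HeightOneSpectrum (𝓞 K), (∀ π ∈ S, algebraMap (𝓞 F) (𝓞 K) π ∉ w.asIdeal) →
        Algebra.IsUnramifiedAt (𝓞 F) w.asIdeal) →
      OnePrime F S ∨ SeveralPrimes F K n S →
      ∀ (k : Type) [Field k] [NumberField k] [Algebra F k] [Algebra k K] [IsScalarTower F k K],
        ChowTorsion k ∧ ∃ Λ : ℂ → ℂ, IsLFunction k Λ ∧ AnalyticAt ℂ Λ 1 ∧ Λ 1 ≠ 0) ∧
    (∀ (F : Type) [Field F] [NumberField F] [IsCyclotomicExtension {3} ℚ F] (n m B : ℕ), n ≠ 0 →
      ∃ (K : Type) (_ : Field K) (_ : NumberField K) (_ : Algebra F K) (_ : IsGalois F K)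
        (S : Finset (𝓞 F)), Module.finrank F K = 3 ^ n ∧ S.card = m + 1 ∧
        (∀ π ∈ S, B < Ideal.absNorm (Ideal.span {π})) ∧
        (∀ w : HeightOneSpectrum (𝓞 K), (∀ π ∈ S, algebraMap (𝓞 F) (𝓞 K) π ∉ w.asIdeal) →
          Algebra.IsUnramifiedAt (𝓞 F) w.asIdeal) ∧
        SeveralPrimes F K n S ∧ (m = 0 → OnePrime F S)) ∧
    ∀ (F : Type) [Field F] [NumberField F] [IsCyclotomicExtension {3} ℚ F] (n m : ℕ), n ≠ 0 →
      ∀ e : Fin (m + 1) → ℕ, (∀ i, ¬ 3 ∣ e i) → Nested (m + 1) fun X =>
        (Tuples F n m X).Finite ∧ 0 < (Tuples F n m X).ncard ∧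
          (Tuples F n m X).ncard < 3 * {q ∈ Tuples F n m X | Good F n m e q}.ncard := by
  refine ⟨?_, ?_, ?_⟩
  · intro F K _ _ _ _ _ _ _ n S hn0 hn hunr hS k _ _ _ _ _
    exact main F K n hn0 hn S hunr hS k
  · intro F _ _ _ n m B hn0
    obtain ⟨θ, hθ⟩ : ∃ θ : 𝓞 F, θ ^ 2 = -3 := by
      obtain ⟨ζ, hζ⟩ := IsCyclotomicExtension.exists_isPrimitiveRoot ℚ F
        (Set.mem_singleton 3) (by norm_num)
      exact ⟨2 * hζ.toInteger + 1, by linear_combination 4 * Pool.Agent.H62.zI hζ⟩
    obtain ⟨K, _, _, _, hgal, S, h1, h2, h3, h4, h5, h6, h7, h8⟩ :=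
      Pool.Agent.H62.EX.goal Pool.Agent.H40.EX.sA1 F θ hθ n m B hn0
    refine ⟨K, inferInstance, inferInstance, inferInstance, hgal, S, h2, h3,
      fun π hπ => (h4 π hπ).2.2.2.1, h5, ⟨h1, ?_, fun π hπ => (h4 π hπ).1, fun π hπ θ' hθ' => ?_,
        fun _ π hπ => (h4 π hπ).2.2.1, h6, h7, h8⟩, fun hk => ?_⟩
    · rw [← Finset.card_pos, h3]
      omega
    · have h5 : (θ' - θ) * (θ' + θ) = 0 := by linear_combination hθ' - hθ
      have h9 := (h4 π hπ).2.1
      rcases mul_eq_zero.1 h5 with h6 | h6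
      · rwa [sub_eq_zero.1 h6]
      · rw [eq_neg_of_add_eq_zero_left h6, mul_neg, neg_dvd]
        exact h9
    · subst hk
      obtain ⟨π, hπ⟩ := Finset.card_eq_one.1 h3
      have hm : π ∈ S := by rw [hπ]; exact Finset.mem_singleton_self π
      obtain ⟨p1, p2, -, -, p3⟩ := h4 π hm
      exact ⟨π, hπ, p1, (dvd_mul_right _ _).trans p2, p3 rfl⟩
  · intro F _ _ _ n m hn0 e he
    obtain ⟨θ, hθ⟩ : ∃ θ : 𝓞 F, θ ^ 2 = -3 := by
      obtain ⟨ζ, hζ⟩ := IsCyclotomicExtension.exists_isPrimitiveRoot ℚ F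
        (Set.mem_singleton 3) (by norm_num)
      exact ⟨2 * hζ.toInteger + 1, by linear_combination 4 * Pool.Agent.H62.zI hζ⟩
    rw [nested_iff]
    refine Pool.Agent.Q14.LK.nest_mono (m + 1) (fun X hX => ?_) (Pool.Agent.H81.TE.share hθ hn0 m e he)
    obtain ⟨h1, h2, h3⟩ := hX
    have h1' : (Tuples F n m X).Finite := h1
    refine ⟨h1, h2, lt_of_lt_of_le h3 (Nat.mul_le_mul_left 3 (Set.ncard_le_ncard ?_ (h1'.subset fun q hq => hq.1)))⟩
    rintro q ⟨hq, a, ha, K, _, _, _, hdeg, ⟨b, hb⟩, k1, k2, k3, k4, k5, k6, k7⟩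
    have hq' : q ∈ Tuples F n m X := hq
    have hSev : SeveralPrimes F K n (Finset.univ.image a) := by
      refine ⟨k2, ⟨a 0, Finset.mem_image_of_mem _ (Finset.mem_univ _)⟩, fun π hπ => ?_, fun π hπ θ' hθ' => ?_,
        fun _ π hπ => ?_, k5, k6, k7⟩
      · obtain ⟨i, -, rfl⟩ := Finset.mem_image.1 hπ
        exact (ha i).2.1
      · obtain ⟨i, -, rfl⟩ := Finset.mem_image.1 hπ
        have h5 : (θ' - θ) * (θ' + θ) = 0 := by linear_combination hθ' - hθ
        rcases mul_eq_zero.1 h5 with h6 | h6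
        · rw [sub_eq_zero.1 h6]
          exact (ha i).2.2
        · rw [eq_neg_of_add_eq_zero_left h6, mul_neg, neg_dvd]
          exact (ha i).2.2
      · obtain ⟨i, -, rfl⟩ := Finset.mem_image.1 hπ
        rw [← (ha i).1]
        exact (hq'.2 i).1
    refine ⟨hq', a, fun i => ⟨(ha i).1, θ, hθ, (ha i).2.2⟩, K, inferInstance, inferInstance, inferInstance,
      k1, hdeg, fun w hw => k4 w fun π hπ => ?_, hSev, b, hb⟩
    obtain ⟨i, -, rfl⟩ := Finset.mem_image.1 hπ
    exact hw i

end

end Pool.Agent.Results.MP_6dc9d1_nt.GenusTwoThreeExtensions
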