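import Pool.Agent.H51.ZC.Univ

/-!
# A system of subgroups of infinite rank of all elliptic curves over the algebraic numbers

Let `K` be a number field, `E₀ : y² = x (x - a) (x - b)` an elliptic curve over `K` and `P₀` an arbitrary point of
`E₀(K)`.  We show that there are subgroups `Γ_E` of `E(K̄)`, one for every elliptic curve `E` over `K̄`, such that

* `P₀` lies in `Γ_{E₀}`,
* every `Γ_E` has infinite rank, and it is saturated (it contains all points of which a multiple lies in it, in
  particular all points of finite order),
* `σ(Γ_E) ⊆ Γ_{σ(E)}` for all `σ` in `Gal(K̄/K)`,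
* the conjecture of Beilinson holds for the following cycles on ALL products `X` of elliptic curves over `K̄`,
  `dim X = 2 i + 1`: the cycles of codimension `i + 1` that are sums of products `z_t × ∏_{o ∉ t} E_o`, where `t` is a
  set of `i + 1` of the factors and `z_t` is a zero-cycle on the product of the factors in `t` which is supported on
  points with all coordinates in the groups `Γ_E`.  Such a cycle is homologically trivial if and only if the `z_t` have
  degree zero, and it is torsion modulo rational equivalence as soon as the sums of the `z_t` are zero; so the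
  homologically trivial cycles of this kind have no more rank than the groups of points account for, as the
  conjectures of Beilinson and of Birch and Swinnerton-Dyer predict.

For two curves: for every point `P₀` of every elliptic curve `E₀` over `K̄` and every elliptic curve `E` over `K̄` the
points `Q` of `E(K̄)` such that `[P₀, Q] - [P₀, O] - [O, Q] + [O, O]` is torsion form a group of infinite rank; and
one can choose subgroups of infinite rank of all the `E(K̄)` such that this holds for any two points in the subgroups.

The proof.  Let `μ` be an element of `K` different from `0, 1`, and let `Γ_E` be the saturation of the subgroup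
generated by the images `φ(Q)` of the points `Q` with the first coordinate `μ` under all maps `φ` to `E` from all the
Legendre curves `y² = x (x - 1) (x - λ)`, `λ` in `K̄`.  (1) The fibre product over the `x`-line of the Legendre curves
with the parameters `λ`, `λ'` is a curve of genus two, whose hyperelliptic involution induces `-1` on both
curves; so `[P, P'] - [P, O] - [O, P'] + [O, O]` is torsion for all the generators `P`, `P'`.  (2) Some multiple
`n P₀` has a first coordinate `x` which is large at a place above two, and we let `μ = x / a`.  (3) Infinite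
rank.  Let `v` be an absolute value of `K̄` above two with `v(16 μ) > 1`.  Every `E` is the target of towers of
isogenies of degree two from the Legendre curves with the parameters `λ_k = r_k²`, where
`r_{k+1}² = (1 + r_k)² / (4 r_k)` (the arithmetic-geometric mean), and the first coordinates are mapped by
`x ↦ r_k x (x - 1) / (x - λ_{k+1})`.  Let `r` and `r'` be two such sequences which differ first in `r'_1 = -r_1`.
Their ratios `c_k = r'_k / r_k` satisfy `v(c_{k+1} - 1)² = v(c_k - 1)`, like the roots of unity of order `2 ^ k`.
We conclude that the images `P`, `P'` of the points with the coordinate `μ` satisfy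
`v(x(P + P')) = v(x(P)) / d` with `d ^ (2 ^ m) = v(2)`, for all large `m`.  If multiples of `P` and `P'` were
defined over a given number field `L` then `v(x(P))` and `v(x(P + P'))`, and `d`, would be values of `v` on
`L`, which is impossible if `2 ^ m` is larger than the degree of `L`.
-/

set_option autoImplicit false

open WeierstrassCurve

namespace Pool.Agent.Results.MP_6dc9d1_nt.UniversalSystem

open Pool.Agent.H51.ZC

/-- **Theorem.** -/
theorem result (K : Type*) [Field K] [NumberField K] [DecidableEq K] [DecidableEq (AlgebraicClosure K)]
    -- the elliptic curve `y² = x (x - a) (x - b)` and a point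
    (a b : K) (ha : a ≠ 0) (hb : b ≠ 0) (hab : a ≠ b) (P₀ : (curve₂ a b).toAffine.Point) :
    ∃ Γ : ∀ E : WeierstrassCurve (AlgebraicClosure K), AddSubgroup E.toAffine.Point,
      bc (AlgebraicClosure K) (curve₂ a b) P₀ ∈ Γ ((curve₂ a b).map (algebraMap K (AlgebraicClosure K))) ∧
      -- the rank of `Γ E` is infinite, for every elliptic curve `E : y² = x³ + a₂ x² + a₄ x + a₆`
      (∀ E, E.a₁ = 0 → E.a₃ = 0 → E.Δ ≠ 0 → ∀ N : ℕ, ∃ P : Fin N → E.toAffine.Point,
        (∀ k, P k ∈ Γ E) ∧ LinearIndependent ℤ P) ∧
      -- `Γ E` is saturated
      (∀ E, ∀ P : E.toAffine.Point, ∀ n : ℕ, 0 < n → n • P ∈ Γ E → P ∈ Γ E) ∧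
      -- the system is stable under the Galois group
      (∀ (σ : AlgebraicClosure K ≃ₐ[K] AlgebraicClosure K) (E), (Γ E).map (conj (σ : _ →+* _) E) ≤
        Γ (E.map (σ : AlgebraicClosure K →+* AlgebraicClosure K))) ∧
      -- all the products of `2 i + 1` elliptic curves, and all the cycles of codimension `i + 1`
      ∀ (i : ℕ) (E : Fin (2 * i + 1) → WeierstrassCurve (AlgebraicClosure K)), (∀ o, (E o).a₁ = 0) →
        (∀ o, (E o).a₃ = 0) → (∀ o, (E o).Δ ≠ 0) → TorsionOn E (i + 1) fun o => Γ (E o) := by
  have halg : Algebra.IsAlgebraic ℚ (AlgebraicClosure K) := Algebra.IsAlgebraic.trans ℚ K _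
  obtain ⟨μ, hμ0, hμ1, hP₀, hrank⟩ := exists_system K (AlgebraicClosure K) a b ha hb hab P₀
  have hφ0 : algebraMap K (AlgebraicClosure K) μ ≠ 0 := (map_ne_zero _).2 hμ0
  have hφ1 : algebraMap K (AlgebraicClosure K) μ ≠ 1 := fun h =>
    hμ1 ((algebraMap K (AlgebraicClosure K)).injective (h.trans (map_one _).symm))
  refine ⟨fun E => satSub (gens (algebraMap K (AlgebraicClosure K) μ) E), hP₀, ?_, ?_, ?_, ?_⟩
  · intro E h1 h3 hΔ N
    obtain ⟨P, hP, hli⟩ := hrank E h1 h3 hΔ N
    exact ⟨P, fun k => subset_satSub (hP k), hli⟩
  · exact fun E P n hn h => satSub_sat hn h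
  · exact fun σ E => satSub_conj (σ : _ →+* _) (σ.commutes μ) E
  · exact fun i E _ _ hΔ => gens_torsion hφ0 hφ1 E hΔ (i + 1)

end Pool.Agent.Results.MP_6dc9d1_nt.UniversalSystem
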